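import Pool.Agent.N24.FV.Fs

/-!
# Kernels in unit groups of algebras with towers of free extensions
-/

set_option autoImplicit false

namespace Pool.Agent.N24.FR

open Module Pool.Agent.Y110.FJ

/-- a realization from a representation of a subalgebra in which `α` is inner -/
theorem realized_of {C : ∀ (G : Type) [Group G], Prop} {G : Type} [Group G]
    (N : Subgroup G) [hN : N.Normal] (g : G) {R A : Type} [CommRing R] [Ring A] [Algebra R A]
    (hR : ∀ d : ℕ, C (Matrix (Fin d) (Fin d) R)ˣ) (u : N →* Aˣ)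
    (hu : Function.Injective u) (α : A ≃ₐ[R] A)
    (hα : ∀ n : N, α (u n) = u ⟨g * n * g⁻¹, hN.conj_mem n n.2 g⟩)
    (E : Set G) (hEN : E ⊆ N) (B₀ B : Subalgebra R A)
    (hE0 : ∀ x : G, ∀ hx : x ∈ E, ((u ⟨x, hEN hx⟩ : Aˣ) : A) ∈ B₀ ∧
      (((u ⟨x, hEN hx⟩)⁻¹ : Aˣ) : A) ∈ B₀)
    (hle : B₀ ≤ B) (hle' : ∀ b ∈ B₀, α b ∈ B)
    (d : ℕ) (Θ : B →ₐ[R] Matrix (Fin d) (Fin d) R) (T : (Matrix (Fin d) (Fin d) R)ˣ)
    (hΘ : Function.Injective Θ)
    (hT : ∀ (b : A) (hb : b ∈ B₀), (T : Matrix (Fin d) (Fin d) R) * Θ ⟨b, hle hb⟩ =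
      Θ ⟨α b, hle' b hb⟩ * T) : Realized C g E := by
  classical
  -- the elements of `N` whose images are in `B`
  let S' : Subgroup N :=
    { carrier := {n | ((u n : Aˣ) : A) ∈ B ∧ (((u n)⁻¹ : Aˣ) : A) ∈ B}
      one_mem' := by
        show ((u 1 : Aˣ) : A) ∈ B ∧ (((u 1)⁻¹ : Aˣ) : A) ∈ B
        rw [map_one, inv_one, Units.val_one]
        exact ⟨B.one_mem, B.one_mem⟩
      mul_mem' := by
        rintro a b ⟨ha, ha'⟩ ⟨hb, hb'⟩
        show ((u (a * b) : Aˣ) : A) ∈ B ∧ (((u (a * b))⁻¹ : Aˣ) : A) ∈ B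
        rw [map_mul, mul_inv_rev, Units.val_mul, Units.val_mul]
        exact ⟨B.mul_mem ha hb, B.mul_mem hb' ha'⟩
      inv_mem' := by
        rintro a ⟨ha, ha'⟩
        show ((u a⁻¹ : Aˣ) : A) ∈ B ∧ (((u a⁻¹)⁻¹ : Aˣ) : A) ∈ B
        rw [map_inv, inv_inv]
        exact ⟨ha', ha⟩ }
  have hclN : Subgroup.closure (E ∪ (fun x => g * x * g⁻¹) '' E) ≤ N := by
    rw [Subgroup.closure_le]
    rintro _ (hx | ⟨x, hx, rfl⟩)
    · exact hEN hx
    · exact hN.conj_mem x (hEN hx) g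
  have hcl : Subgroup.closure (E ∪ (fun x => g * x * g⁻¹) '' E) ≤ S'.map N.subtype := by
    rw [Subgroup.closure_le]
    rintro _ (hx | ⟨x, hx, rfl⟩)
    · exact ⟨⟨_, hEN hx⟩, ⟨hle (hE0 _ hx).1, hle (hE0 _ hx).2⟩, rfl⟩
    · refine ⟨⟨g * x * g⁻¹, hN.conj_mem x (hEN hx) g⟩, ⟨?_, ?_⟩, rfl⟩
      · rw [← hα ⟨x, hEN hx⟩]
        exact hle' _ (hE0 _ hx).1
      · have e1 : (u ⟨g * x * g⁻¹, hN.conj_mem x (hEN hx) g⟩)⁻¹ =
            Units.map (α : A →* A) (u ⟨x, hEN hx⟩)⁻¹ := by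
          rw [map_inv]
          congr 1
          apply Units.ext
          exact (hα ⟨x, hEN hx⟩).symm
        rw [e1]
        exact hle' _ (hE0 _ hx).2
  have hB : ∀ x : Subgroup.closure (E ∪ (fun x => g * x * g⁻¹) '' E),
      ((u (Subgroup.inclusion hclN x) : Aˣ) : A) ∈ B := by
    intro x
    obtain ⟨n, hn, hnx⟩ := hcl x.2
    have e1 : Subgroup.inclusion hclN x = n := Subtype.ext hnx.symm
    rw [e1]
    exact hn.1
  let F : Subgroup.closure (E ∪ (fun x => g * x * g⁻¹) '' E) →* Matrix (Fin d) (Fin d) R :=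
    { toFun := fun x => Θ ⟨_, hB x⟩
      map_one' := by
        rw [← map_one Θ]
        congr 1
        apply Subtype.ext
        show ((u (Subgroup.inclusion hclN 1) : Aˣ) : A) = 1
        rw [map_one, map_one, Units.val_one]
      map_mul' := by
        intro x y
        rw [← map_mul Θ]
        congr 1
        apply Subtype.ext
        show ((u (Subgroup.inclusion hclN (x * y)) : Aˣ) : A) = _
        rw [map_mul, map_mul, Units.val_mul]
        rfl }
  refine ⟨(Matrix (Fin d) (Fin d) R)ˣ, inferInstance, F.toHomUnits, T, hR d, ?_, ?_⟩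
  · intro x y hxy
    have e1 : F x = F y := congrArg Units.val hxy
    have e2 := congrArg Subtype.val (hΘ e1)
    exact Subgroup.inclusion_injective hclN (hu (Units.ext e2))
  · intro x y hx hy
    rw [eq_mul_inv_iff_mul_eq]
    apply Units.ext
    show F y * (T : Matrix (Fin d) (Fin d) R) = T * F x
    have e4 : (⟨_, hB y⟩ : B) = ⟨α (u ⟨x, hEN hx⟩), hle' _ (hE0 x hx).1⟩ := by
      apply Subtype.ext
      show ((u (Subgroup.inclusion hclN y) : Aˣ) : A) = α (u ⟨x, hEN hx⟩)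
      rw [hα]
      have e5 : Subgroup.inclusion hclN y =
          ⟨g * x * g⁻¹, hN.conj_mem _ (hEN hx) g⟩ := Subtype.ext hy
      rw [e5]
    show Θ ⟨_, hB y⟩ * (T : Matrix (Fin d) (Fin d) R) = T * Θ ⟨_, hB x⟩
    rw [e4]
    exact (hT _ (hE0 x hx).1).symm

/-- A tower of free extensions: every finite subset of `A` lies in a member of `ℱ`, the members of
`ℱ` are free `R`-modules of finite rank, and a member of `ℱ` is a free left module over each smaller
member. -/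
structure IsFreeTower {R A : Type} [CommRing R] [Ring A] [Algebra R A]
    (ℱ : Set (Subalgebra R A)) : Prop where
  exists_mem : ∀ S : Set A, S.Finite → ∃ B ∈ ℱ, S ⊆ B
  finite : ∀ B ∈ ℱ, Module.Finite R B
  free : ∀ B ∈ ℱ, Module.Free R B
  free_over : ∀ B₀ ∈ ℱ, ∀ B ∈ ℱ, ∀ h : B₀ ≤ B,
    @Module.Free B₀ B _ _ (Subalgebra.inclusion h).toRingHom.toModule

section

variable {R A : Type} [CommRing R] [Ring A] [Algebra R A]

/-- a member of the tower is a sum of copies of a smaller one -/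
theorem exists_equiv {ℱ : Set (Subalgebra R A)} (hF : IsFreeTower ℱ) {B₀ B : Subalgebra R A}
    (h0 : B₀ ∈ ℱ) (h1 : B ∈ ℱ) (h : B₀ ≤ B) :
    ∃ (k : ℕ) (e : B ≃ₗ[R] (Fin k → B₀)), ∀ (b : B₀) (v : B) (i : Fin k),
      e (Subalgebra.inclusion h b * v) i = b * e v i := by
  letI : Module B₀ B := (Subalgebra.inclusion h).toRingHom.toModule
  have hfree : Module.Free B₀ B := hF.free_over B₀ h0 B h1 h
  have hfin : Module.Finite R B := hF.finite B h1
  have hst : IsScalarTower R B₀ B := ⟨fun r b v => by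
    show Subalgebra.inclusion h (r • b) * v = r • (Subalgebra.inclusion h b * v)
    rw [map_smul, smul_mul_assoc]⟩
  have hfin' : Module.Finite B₀ B := Module.Finite.of_restrictScalars_finite R B₀ B
  let bs := Module.Free.chooseBasis B₀ B
  let e0 := bs.equivFun
  obtain ⟨k, ⟨eq⟩⟩ := Finite.exists_equiv_fin (Module.Free.ChooseBasisIndex B₀ B)
  let e1 : B ≃ₗ[B₀] (Fin k → B₀) := e0.trans (LinearEquiv.funCongrLeft B₀ B₀ eq.symm)
  refine ⟨k, e1.restrictScalars R, fun b v i => ?_⟩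
  exact congrFun (map_smul e1 b v) i

theorem model {ℱ : Set (Subalgebra R A)} [Nontrivial R] [Nontrivial A] (hF : IsFreeTower ℱ)
    (α : A ≃ₐ[R] A) {B₀ B : Subalgebra R A} (h0 : B₀ ∈ ℱ) (h0' : B₀.map (α : A →ₐ[R] A) ∈ ℱ)
    (h1 : B ∈ ℱ) (hle : B₀ ≤ B) (hle' : B₀.map (α : A →ₐ[R] A) ≤ B) :
    ∃ (d : ℕ) (Θ : B →ₐ[R] Matrix (Fin d) (Fin d) R) (T : (Matrix (Fin d) (Fin d) R)ˣ),
      Function.Injective Θ ∧ ∀ (b : A) (hb : b ∈ B₀),
        (T : Matrix (Fin d) (Fin d) R) * Θ ⟨b, hle hb⟩ = Θ ⟨α b, hle' ⟨b, hb, rfl⟩⟩ * T := by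
  obtain ⟨k, e, he⟩ := exists_equiv hF h0 h1 hle
  obtain ⟨k', e', he'⟩ := exists_equiv hF h0' h1 hle'
  have i1 := hF.finite B h1
  have i2 := hF.free B h1
  have i3 := hF.finite B₀ h0
  have i4 := hF.free B₀ h0
  have i5 := hF.finite _ h0'
  have i6 := hF.free _ h0'
  let α₀ : B₀ ≃ₗ[R] (B₀.map (α : A →ₐ[R] A)) :=
    { toFun := fun b => ⟨α b, b, b.2, rfl⟩
      invFun := fun c => ⟨α.symm c, by
        obtain ⟨b, hb, hbc⟩ := c.2
        have h3 : α b = c := hbc
        rw [← h3, AlgEquiv.symm_apply_apply]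
        exact hb⟩
      left_inv := fun b => Subtype.ext (α.symm_apply_apply _)
      right_inv := fun c => Subtype.ext (α.apply_symm_apply _)
      map_add' := fun b c => Subtype.ext (map_add α _ _)
      map_smul' := fun r b => Subtype.ext (map_smul α r (b : A)) }
  have hk : k = k' := by
    have h3 : finrank R B = k * finrank R B₀ := by
      rw [e.finrank_eq, Module.finrank_pi_fintype]
      simp
    have h4 : finrank R B = k' * finrank R (B₀.map (α : A →ₐ[R] A)) := by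
      rw [e'.finrank_eq, Module.finrank_pi_fintype]
      simp
    rw [← α₀.finrank_eq, h3] at h4
    have h5 : 0 < finrank R B₀ := by
      rw [Module.finrank_eq_card_chooseBasisIndex, Fintype.card_pos_iff]
      exact (Module.Free.chooseBasis R B₀).index_nonempty
    exact Nat.eq_of_mul_eq_mul_right h5 h4
  subst hk
  -- the intertwiner
  let T : B ≃ₗ[R] B := e.trans ((LinearEquiv.piCongrRight fun _ => α₀).trans e'.symm)
  have hT : ∀ (b : A) (hb : b ∈ B₀) (v : B), T (⟨b, hle hb⟩ * v) =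
      ⟨α b, hle' ⟨b, hb, rfl⟩⟩ * T v := by
    intro b hb v
    apply e'.injective
    show e' (e'.symm _) = _
    rw [LinearEquiv.apply_symm_apply]
    funext i
    have h6 := he' ⟨α b, b, hb, rfl⟩ (T v) i
    have h7 : (Subalgebra.inclusion hle' (⟨α b, b, hb, rfl⟩ : B₀.map (α : A →ₐ[R] A)) : B) =
      ⟨α b, hle' ⟨b, hb, rfl⟩⟩ := rfl
    rw [h7] at h6
    rw [h6]
    have h8 : e' (T v) i = α₀ (e v i) := by
      show e' (e'.symm _) i = _
      rw [LinearEquiv.apply_symm_apply]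
      rfl
    rw [h8]
    show α₀ (e (⟨b, hle hb⟩ * v) i) = _
    have h9 := he ⟨b, hb⟩ v i
    have h10 : (Subalgebra.inclusion hle (⟨b, hb⟩ : B₀) : B) = ⟨b, hle hb⟩ := rfl
    rw [h10] at h9
    rw [h9]
    apply Subtype.ext
    exact map_mul α _ _
  let bs := Module.finBasis R B
  let τ := LinearMap.toMatrixAlgEquiv bs
  let Tu : (Module.End R B)ˣ :=
    { val := T.toLinearMap, inv := T.symm.toLinearMap
      val_inv := by
        refine LinearMap.ext fun v => ?_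
        exact T.apply_symm_apply v
      inv_val := by
        refine LinearMap.ext fun v => ?_
        exact T.symm_apply_apply v }
  refine ⟨Module.finrank R B, τ.toAlgHom.comp (Algebra.lmul R B),
    Units.map (τ : Module.End R B →* _) Tu, τ.injective.comp Algebra.lmul_injective,
    fun b hb => ?_⟩
  show τ T.toLinearMap * τ (Algebra.lmul R B ⟨b, hle hb⟩) =
    τ (Algebra.lmul R B ⟨α b, hle' ⟨b, hb, rfl⟩⟩) * τ T.toLinearMap
  rw [← map_mul, ← map_mul]
  congr 1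
  refine LinearMap.ext fun v => ?_
  exact hT b hb v

end

/-- **kernels in unit groups of algebras with towers of free extensions** -/
theorem main {C : ∀ (G : Type) [Group G], Prop} (hC : ClosedE C) (G : Type) [Group G]
    (N : Subgroup G) [hN : N.Normal] (hCN : C N) (hQ : C (G ⧸ N))
    (h : ∀ g : G, (∀ n : ℕ, 0 < n → g ^ n ∉ N) →
      ∃ (R A : Type) (_ : CommRing R) (_ : Ring A) (_ : Algebra R A) (ℱ : Set (Subalgebra R A))
        (u : N →* Aˣ) (α : A ≃ₐ[R] A),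
        (∀ d : ℕ, C (Matrix (Fin d) (Fin d) R)ˣ) ∧ IsFreeTower ℱ ∧
        (∀ B ∈ ℱ, B.map (α : A →ₐ[R] A) ∈ ℱ) ∧ Function.Injective u ∧
        (∀ n : N, α (u n) = u ⟨g * n * g⁻¹, hN.conj_mem n n.2 g⟩)) : C G := by
  classical
  refine Pool.Agent.Y529.FJ.t_ext C hC G N hCN hQ fun g hg => ?_
  refine Pool.Agent.R779.FJ.t_col (Pool.Agent.Y961.FJ.t_perm Pool.Agent.Y529.FJ.t_ext) C hC G N g hg
    fun E hE hEN => ?_
  obtain ⟨R, A, _, _, _, ℱ, u, α, hR, hF, hαF, hu, hα⟩ := h g hg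
  -- the first member
  obtain ⟨B₀, h0, hS₀⟩ := hF.exists_mem
    ((fun x : N => ((u x : Aˣ) : A)) '' ((↑) ⁻¹' E) ∪
      (fun x : N => (((u x)⁻¹ : Aˣ) : A)) '' ((↑) ⁻¹' E))
    (((hE.preimage Subtype.val_injective.injOn).image _).union
      ((hE.preimage Subtype.val_injective.injOn).image _))
  have h0' := hαF B₀ h0
  -- generators
  obtain ⟨S₀, hfs₀⟩ := (Subalgebra.fg_of_fg_toSubmodule
    ((Submodule.fg_top (Subalgebra.toSubmodule B₀)).1 (hF.finite B₀ h0).1) : B₀.FG)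
  obtain ⟨S₁, hfs₁⟩ := (Subalgebra.fg_of_fg_toSubmodule
    ((Submodule.fg_top (Subalgebra.toSubmodule (B₀.map (α : A →ₐ[R] A)))).1
      (hF.finite _ h0').1) : (B₀.map (α : A →ₐ[R] A)).FG)
  obtain ⟨B, h1, hS₁⟩ := hF.exists_mem (S₀ ∪ S₁ : Set A) (S₀.finite_toSet.union S₁.finite_toSet)
  have hle : B₀ ≤ B := by
    rw [← hfs₀, Algebra.adjoin_le_iff]
    exact Set.subset_union_left.trans hS₁
  have hle' : B₀.map (α : A →ₐ[R] A) ≤ B := by
    rw [← hfs₁, Algebra.adjoin_le_iff]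
    exact Set.subset_union_right.trans hS₁
  have hE0 : ∀ x : G, ∀ hx : x ∈ E, ((u ⟨x, hEN hx⟩ : Aˣ) : A) ∈ B₀ ∧
      (((u ⟨x, hEN hx⟩)⁻¹ : Aˣ) : A) ∈ B₀ := fun x hx =>
    ⟨hS₀ (Or.inl ⟨⟨x, hEN hx⟩, hx, rfl⟩), hS₀ (Or.inr ⟨⟨x, hEN hx⟩, hx, rfl⟩)⟩
  by_cases hA : Nontrivial A
  · have hRn : Nontrivial R := by
      by_contra hc
      rw [not_nontrivial_iff_subsingleton] at hc
      have := Module.subsingleton R A
      exact not_subsingleton A this
    obtain ⟨d, Θ, T, hΘ, hT⟩ := model hF α h0 h0' h1 hle hle'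
    exact realized_of N g hR u hu α hα E hEN B₀ B hE0 hle (fun b hb => hle' ⟨b, hb, rfl⟩) d Θ T
      hΘ hT
  · rw [not_nontrivial_iff_subsingleton] at hA
    have : Subsingleton B := ⟨fun a b => Subtype.ext (Subsingleton.elim _ _)⟩
    refine realized_of N g hR u hu α hα E hEN B₀ B hE0 hle (fun b hb => hle' ⟨b, hb, rfl⟩) 0
      { toFun := fun _ => 0
        map_one' := Subsingleton.elim _ _
        map_mul' := fun _ _ => Subsingleton.elim _ _
        map_zero' := rfl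
        map_add' := fun _ _ => Subsingleton.elim _ _
        commutes' := fun _ => Subsingleton.elim _ _ } 1 (fun a b _ => Subsingleton.elim _ _)
      fun _ _ => Subsingleton.elim _ _

end Pool.Agent.N24.FR
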